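import Mathlib

/-!
The profinite coarse structures on the integers are never coarsely isomorphic (not even coarsely
equivalent) to a coarse structure coming from a word metric.
-/

set_option linter.style.haveILetI false

namespace Pool.Agent.Results.MP_59b615_al.NoIso

open Filter Topology
open scoped Pointwise

/-- A coarse structure on `X`, specified by its uniformly bounded families of subsets
(a family is recorded by the set of its members). -/
abbrev Coarse (X : Type) : Type := Set (Set X) → Prop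

/-- The set `Q^*` of positive integers all of whose prime factors lie in `Q`. -/
def QStar (Q : Set ℕ) : Set ℕ := {m | 0 < m ∧ ∀ p : ℕ, p.Prime → p ∣ m → p ∈ Q}

/-- The diagonal homomorphism from `ℤ` to the product of all `ℤ/m`, `m ∈ Q^*`
(its image lies in the inverse limit `ℤ_Q`). -/
def diag (Q : Set ℕ) : ℤ →+ ((m : QStar Q) → ZMod m) where
  toFun n := fun m => (n : ZMod m)
  map_zero' := by ext m; simp
  map_add' x y := by ext m; simp

/-- The topology `τ_Q` on `ℤ`, induced by the diagonal map from the product topology on the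
product of the discrete groups `ℤ/m`, `m ∈ Q^*`. -/
@[reducible] def tauQ (Q : Set ℕ) : TopologicalSpace ℤ :=
  TopologicalSpace.induced (diag Q) Pi.topologicalSpace

/-- The profinite coarse structure `E_Q`: a family is uniformly bounded iff all its members lie
in translates of one `τ_Q`-compact set. -/
def EQ (Q : Set ℕ) : Coarse ℤ := fun 𝒜 =>
  ∃ K : Set ℤ, @IsCompact ℤ (tauQ Q) K ∧ ∀ A ∈ 𝒜, ∃ k : ℤ, A ⊆ (fun x => k + x) '' K

/-- The word metric `d_S`: the least number of elements of `S ∪ (-S)` (with repetition) with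
sum `n - m`, and `∞` if there is none. -/
noncomputable def wordDist (S : Set ℤ) (n m : ℤ) : ℕ∞ :=
  sInf {k : ℕ∞ | ∃ l : List ℤ, (∀ x ∈ l, x ∈ S ∨ -x ∈ S) ∧ l.sum = n - m ∧ (l.length : ℕ∞) = k}

/-- The coarse structure of the Cayley graph: a family is uniformly bounded iff its members have
uniformly bounded `d_S`-diameter. -/
def ECay (S : Set ℤ) : Coarse ℤ := fun 𝒜 =>
  ∃ N : ℕ, ∀ A ∈ 𝒜, ∀ x ∈ A, ∀ y ∈ A, wordDist S x y ≤ N

/-- `f` sends uniformly bounded families to uniformly bounded families. -/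
def Controlled {X Y : Type} (E : Coarse X) (E' : Coarse Y) (f : X → Y) : Prop :=
  ∀ 𝒜 : Set (Set X), E 𝒜 → E' ((fun A => f '' A) '' 𝒜)

/-- The functions `f,f'` are close: the family of all `{f(x), f'(x)}` is uniformly bounded. -/
def Close {X Y : Type} (E' : Coarse Y) (f f' : X → Y) : Prop :=
  E' (Set.range fun x => ({f x, f' x} : Set Y))

/-- Coarse equivalences of coarse spaces. -/
def IsCoarseEquiv {X Y : Type} (E : Coarse X) (E' : Coarse Y) (f : X → Y) : Prop :=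
  Controlled E E' f ∧ ∃ g : Y → X, Controlled E' E g ∧ Close E (g ∘ f) id ∧ Close E' (f ∘ g) id

/-- Coarse isomorphisms between coarse groups with underlying group `ℤ`. -/
def IsCoarseIso (E E' : Coarse ℤ) (f : ℤ → ℤ) : Prop :=
  IsCoarseEquiv E E' f ∧
    E' (Set.range fun p : ℤ × ℤ => ({f (p.1 + p.2), f p.1 + f p.2} : Set ℤ))

/-! ### Topology of `τ_Q` -/

theorem tauQ_addGroup (Q : Set ℕ) : @IsTopologicalAddGroup ℤ (tauQ Q) _ := by
  exact topologicalAddGroup_induced (diag Q)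

theorem tauQ_tendsto {Q : Set ℕ} {x : ℕ → ℤ} (h : ∀ m ∈ QStar Q, ∀ᶠ n in atTop, (m : ℤ) ∣ x n) :
    Tendsto x atTop (@nhds ℤ (tauQ Q) 0) := by
  have h1 : @nhds ℤ (tauQ Q) 0 = comap (diag Q) (𝓝 (diag Q 0)) := by
    exact nhds_induced (diag Q) 0
  rw [h1, tendsto_comap_iff, tendsto_pi_nhds]
  rintro ⟨m, hm⟩
  rw [nhds_discrete, tendsto_pure]
  filter_upwards [h m hm] with n hn
  change ((x n : ℤ) : ZMod m) = ((0 : ℤ) : ZMod m)
  rw [Int.cast_zero]
  exact (ZMod.intCast_zmod_eq_zero_iff_dvd _ _).mpr hn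

theorem isClopen_fiber {Q : Set ℕ} {m : ℕ} (hm : m ∈ QStar Q) (T : Set (ZMod m)) :
    @IsClosed ℤ (tauQ Q) {x : ℤ | (x : ZMod m) ∈ T} := by
  letI : TopologicalSpace ℤ := tauQ Q
  have hc : Continuous (diag Q) := continuous_induced_dom
  have hc2 : Continuous fun x : ℤ => diag Q x ⟨m, hm⟩ := (continuous_apply _).comp hc
  exact IsClosed.preimage hc2 (isClosed_discrete T)

theorem pow_mem_QStar {Q : Set ℕ} {p : ℕ} (hp : p.Prime) (hpQ : p ∈ Q) (k : ℕ) :
    p ^ k ∈ QStar Q := by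
  refine ⟨pow_pos hp.pos k, fun q hq hqp => ?_⟩
  rwa [(Nat.prime_dvd_prime_iff_eq hq hp).mp (hq.dvd_of_dvd_pow hqp)]

theorem univ_not_compact {Q : Set ℕ} {p : ℕ} (hp : p.Prime) (hpQ : p ∈ Q) :
    ¬ @IsCompact ℤ (tauQ Q) Set.univ := by
  intro hcomp
  letI : TopologicalSpace ℤ := tauQ Q
  let F : ℕ → Set ℤ := fun k => {x : ℤ | ((p : ℤ) ^ k) ∣ (p + 1) * x - 1}
  have hF : ∀ k, IsClosed (F k) := by
    intro k
    have := isClopen_fiber (pow_mem_QStar hp hpQ k)
      {y : ZMod (p ^ k) | ((p : ZMod (p ^ k)) + 1) * y - 1 = 0}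
    convert this using 1
    ext x
    change ((p : ℤ) ^ k) ∣ (p + 1) * x - 1 ↔
      ((p : ZMod (p ^ k)) + 1) * (x : ZMod (p ^ k)) - 1 = 0
    have h1 : ((p : ZMod (p ^ k)) + 1) * (x : ZMod (p ^ k)) - 1 =
      (((p + 1) * x - 1 : ℤ) : ZMod (p ^ k)) := by push_cast; ring
    rw [h1, ZMod.intCast_zmod_eq_zero_iff_dvd]
    push_cast
    rfl
  have hne : (⋂ k, F k).Nonempty := by
    apply IsCompact.nonempty_iInter_of_sequence_nonempty_isCompact_isClosed F
    · intro k x hx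
      exact (pow_dvd_pow (p : ℤ) (Nat.le_succ k)).trans hx
    · intro k
      have hcop : IsCoprime ((p : ℤ) + 1) ((p : ℤ) ^ k) :=
        IsCoprime.pow_right ⟨1, -1, by ring⟩
      obtain ⟨u, v, huv⟩ := hcop
      refine ⟨u, ⟨-v, ?_⟩⟩
      linear_combination huv
    · exact hcomp.of_isClosed_subset (hF 0) (Set.subset_univ _)
    · exact hF
  obtain ⟨x, hx⟩ := hne
  rw [Set.mem_iInter] at hx
  have hp2 : (2 : ℤ) ≤ p := by exact_mod_cast hp.two_le
  have h0 : (p + 1 : ℤ) * x - 1 = 0 := by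
    by_contra hne0
    obtain ⟨k, hk⟩ : ∃ k : ℕ, ((p + 1 : ℤ) * x - 1).natAbs < 2 ^ k :=
      ⟨_, Nat.lt_two_pow_self⟩
    have h1 := Int.natAbs_dvd_natAbs.mpr (hx k)
    have h2 := Nat.le_of_dvd (Int.natAbs_pos.mpr hne0) h1
    rw [Int.natAbs_pow, Int.natAbs_natCast] at h2
    have h3 : 2 ^ k ≤ p ^ k := Nat.pow_le_pow_left hp.two_le k
    omega
  have h1 : (p + 1 : ℤ) ∣ 1 := ⟨x, by linarith⟩
  have h2 := Int.le_of_dvd one_pos h1
  linarith

theorem multiples_not_compact {Q : Set ℕ} {p : ℕ} (hp : p.Prime) (hpQ : p ∈ Q) {m : ℕ}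
    (hm : 0 < m) : ¬ @IsCompact ℤ (tauQ Q) {x : ℤ | (m : ℤ) ∣ x} := by
  intro hcomp
  apply univ_not_compact hp hpQ
  letI : TopologicalSpace ℤ := tauQ Q
  haveI : IsTopologicalAddGroup ℤ := tauQ_addGroup Q
  have h1 : (Set.univ : Set ℤ) =
      ⋃ r ∈ Finset.range m, (fun x : ℤ => (r : ℤ) + x) '' {x : ℤ | (m : ℤ) ∣ x} := by
    symm
    rw [Set.eq_univ_iff_forall]
    intro x
    have hm' : (0 : ℤ) < m := by exact_mod_cast hm
    simp only [Set.mem_iUnion, Finset.mem_range]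
    refine ⟨(x % m).toNat, ?_, x - x % m, ?_, ?_⟩
    · have h1 := Int.emod_lt_of_pos x hm'
      have h2 := Int.emod_nonneg x hm'.ne'
      omega
    · exact Int.dvd_self_sub_emod
    · have h2 := Int.emod_nonneg x hm'.ne'
      change ((x % m).toNat : ℤ) + (x - x % m) = x
      rw [Int.toNat_of_nonneg h2]
      ring
  rw [h1]
  refine (Finset.range m).isCompact_biUnion fun r _ => ?_
  exact hcomp.image (continuous_const.add continuous_id)

/-- A countable family of `τ_Q`-compact sets is never cofinal among the compact sets. -/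
theorem exists_compact_not_subset {Q : Set ℕ} {p : ℕ} (hp : p.Prime) (hpQ : p ∈ Q)
    (C : ℕ → Set ℤ) (hC : ∀ n, @IsCompact ℤ (tauQ Q) (C n)) :
    ∃ K : Set ℤ, @IsCompact ℤ (tauQ Q) K ∧ ∀ n, ¬ K ⊆ C n := by
  classical
  letI : TopologicalSpace ℤ := tauQ Q
  let M : ℕ → ℕ := fun n => ∏ k ∈ (Finset.range (n + 1)).filter (fun k => k ∈ QStar Q), k
  have hM : ∀ n, M n ∈ QStar Q := by
    intro n
    constructor
    · apply Finset.prod_pos
      intro k hk
      rw [Finset.mem_filter] at hk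
      exact hk.2.1
    · intro q hq hqM
      obtain ⟨k, hk, hqk⟩ := (Prime.dvd_finsetProd_iff hq.prime _).mp hqM
      rw [Finset.mem_filter] at hk
      exact hk.2.2 q hq hqk
  have hx : ∀ n, ∃ x : ℤ, (M n : ℤ) ∣ x ∧ x ∉ C n := by
    intro n
    by_contra hcon
    push Not at hcon
    apply multiples_not_compact hp hpQ (hM n).1
    refine (hC n).of_isClosed_subset ?_ (fun x hx => hcon x hx)
    have := isClopen_fiber (hM n) {0}
    convert this using 1
    ext x
    change (M n : ℤ) ∣ x ↔ (x : ZMod (M n)) = 0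
    rw [ZMod.intCast_zmod_eq_zero_iff_dvd]
  choose x hx1 hx2 using hx
  refine ⟨insert 0 (Set.range x), ?_, fun n hn => hx2 n (hn (Set.mem_insert_of_mem _ ⟨n, rfl⟩))⟩
  apply Tendsto.isCompact_insert_range
  apply tauQ_tendsto
  intro m hm
  filter_upwards [eventually_ge_atTop m] with n hn
  refine dvd_trans ?_ (hx1 n)
  rw [Int.natCast_dvd_natCast]
  apply Finset.dvd_prod_of_mem
  rw [Finset.mem_filter, Finset.mem_range]
  exact ⟨by omega, hm⟩

/-! ### Word metrics -/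

theorem wordDist_le {S : Set ℤ} {n m : ℤ} {N : ℕ} :
    wordDist S n m ≤ N ↔
      ∃ l : List ℤ, (∀ x ∈ l, x ∈ S ∨ -x ∈ S) ∧ l.sum = n - m ∧ l.length ≤ N := by
  constructor
  · intro h
    have hne : {k : ℕ∞ | ∃ l : List ℤ, (∀ x ∈ l, x ∈ S ∨ -x ∈ S) ∧ l.sum = n - m ∧
        (l.length : ℕ∞) = k}.Nonempty := by
      by_contra hcon
      rw [Set.not_nonempty_iff_eq_empty] at hcon
      unfold wordDist at h
      rw [hcon, sInf_empty] at h
      exact absurd h (by simp)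
    obtain ⟨l, hl, hs, hk⟩ := csInf_mem hne
    refine ⟨l, hl, hs, ?_⟩
    have : (l.length : ℕ∞) ≤ N := by rw [hk]; exact h
    exact_mod_cast this
  · rintro ⟨l, hl, hs, hk⟩
    have h1 : wordDist S n m ≤ (l.length : ℕ∞) := sInf_le ⟨l, hl, hs, rfl⟩
    exact h1.trans (by exact_mod_cast hk)

theorem wordDist_self (S : Set ℤ) (n : ℤ) (N : ℕ) : wordDist S n n ≤ N :=
  wordDist_le.mpr ⟨[], by simp, by simp, by simp⟩

theorem wordDist_symm {S : Set ℤ} {n m : ℤ} {N : ℕ} (h : wordDist S n m ≤ N) :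
    wordDist S m n ≤ N := by
  obtain ⟨l, hl, hs, hk⟩ := wordDist_le.mp h
  refine wordDist_le.mpr ⟨l.map fun x => -x, ?_, ?_, by simpa using hk⟩
  · intro x hx
    rw [List.mem_map] at hx
    obtain ⟨y, hy, rfl⟩ := hx
    rcases hl y hy with h | h
    · right; rwa [neg_neg]
    · left; exact h
  · have : ∀ l : List ℤ, (l.map fun x => -x).sum = -l.sum := by
      intro l
      induction l with
      | nil => simp
      | cons y l ih =>
        rw [List.map_cons, List.sum_cons, List.sum_cons, ih]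
        ring
    rw [this, hs]
    ring

/-! ### The theorem -/

theorem no_equiv {Q : Set ℕ} {p : ℕ} (hp : p.Prime) (hpQ : p ∈ Q) (S : Set ℤ) (f : ℤ → ℤ) :
    ¬ IsCoarseEquiv (EQ Q) (ECay S) f := by
  rintro ⟨hf, g, hg, ⟨K, hK, hgf⟩, -⟩
  letI : TopologicalSpace ℤ := tauQ Q
  haveI : IsTopologicalAddGroup ℤ := tauQ_addGroup Q
  -- the balls around `f 0`
  have hball : ∀ N : ℕ, ∃ C : Set ℤ, IsCompact C ∧
      ∀ x : ℤ, wordDist S (f x) (f 0) ≤ N → x ∈ C := by
    intro N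
    obtain ⟨L, hL, hL'⟩ := hg (Set.range fun y : {y : ℤ // wordDist S y (f 0) ≤ N} =>
      ({(y : ℤ), f 0} : Set ℤ)) (by
        refine ⟨N, ?_⟩
        rintro A ⟨⟨y, hy⟩, rfl⟩ u hu v hv
        rcases hu with rfl | rfl <;> rcases hv with rfl | rfl
        · exact wordDist_self _ _ _
        · exact hy
        · exact wordDist_symm hy
        · exact wordDist_self _ _ _)
    refine ⟨(K + -K) + ({g (f 0)} + (L + -L)), ?_, ?_⟩
    · exact (hK.add hK.neg).add (isCompact_singleton.add (hL.add hL.neg))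
    · intro x hx
      obtain ⟨k, hk⟩ := hgf _ ⟨x, rfl⟩
      obtain ⟨s, hs, hs'⟩ := hk (Set.mem_insert _ _)
      obtain ⟨t, ht, ht'⟩ := hk (Set.mem_insert_of_mem _ rfl)
      obtain ⟨j, hj⟩ := hL' _ ⟨_, ⟨⟨f x, hx⟩, rfl⟩, rfl⟩
      obtain ⟨u, hu, hu'⟩ := hj ⟨f x, Set.mem_insert _ _, rfl⟩
      obtain ⟨v, hv, hv'⟩ := hj ⟨f 0, Set.mem_insert_of_mem _ rfl, rfl⟩
      simp only [Function.comp_apply, id_eq] at hs' ht' hu' hv'
      have hx' : x = (t + -s) + (g (f 0) + (u + -v)) := by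
        linarith
      rw [hx']
      exact Set.add_mem_add (Set.add_mem_add ht (Set.neg_mem_neg.mpr hs))
        (Set.add_mem_add rfl (Set.add_mem_add hu (Set.neg_mem_neg.mpr hv)))
  choose C hC hC' using hball
  obtain ⟨K', hK', hK''⟩ := exists_compact_not_subset hp hpQ C hC
  obtain ⟨N, hN⟩ := hf {insert 0 K'} ⟨insert 0 K', hK'.insert 0, by
    rintro A rfl
    exact ⟨0, by simp⟩⟩
  apply hK'' N
  intro x hx
  apply hC' N x
  exact hN _ ⟨insert 0 K', rfl, rfl⟩ _ ⟨x, Set.mem_insert_of_mem _ hx, rfl⟩ _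
    ⟨0, Set.mem_insert _ _, rfl⟩

/-- For every non-empty set of primes `Q` and every `S ⊆ ℤ`, the coarse groups `(ℤ, E_Q)` and
`(ℤ, E_Cay(S))` are not coarsely isomorphic; in fact the coarse spaces are not even coarsely
equivalent. -/
theorem result (Q : Set ℕ) (hQ : Q.Nonempty) (hprime : ∀ p ∈ Q, p.Prime) (S : Set ℤ) :
    (¬ ∃ f : ℤ → ℤ, IsCoarseIso (EQ Q) (ECay S) f) ∧
      ¬ ∃ f : ℤ → ℤ, IsCoarseEquiv (EQ Q) (ECay S) f := by
  obtain ⟨p, hp⟩ := hQ
  exact ⟨fun ⟨f, hf⟩ => no_equiv (hprime p hp) hp S f hf.1,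
    fun ⟨f, hf⟩ => no_equiv (hprime p hp) hp S f hf⟩

end Pool.Agent.Results.MP_59b615_al.NoIso
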